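import Pool.Agent.U664.SV.Rank
import Pool.Agent.U492.GP.Main

/-!
# The powers `n ^ t` at every scale: primes and examples of exponents
-/

set_option autoImplicit false

namespace Pool.Agent.U664.SV

open Complex Finset Polynomial Pool.Agent.R347.LW Pool.Agent.U664.SQ Pool.Agent.TH456.TM
open Pool.Agent.U492.GP (vv rel_of_log encard_le_two)

/-- three different primes are multiplicatively independent -/
theorem primes_le_two {S : Set ℕ} (hS : ∀ p ∈ S, p.Prime)
    (h : ∀ f : Fin 3 → ℕ, (∀ i, f i ∈ S) →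
      ∃ c : Fin 3 → ℤ, c ≠ 0 ∧ ∑ i, (c i : ℝ) * Real.log (f i) = 0) : S.encard ≤ 2 := by
  refine encard_le_two fun f hf => ?_
  by_contra hcon
  push Not at hcon
  obtain ⟨c, hc0, hc⟩ := h f hcon
  apply hc0
  funext j
  have h1 := rel_of_log f (fun i => (hS _ (hcon i)).ne_zero) c hc (f j)
  rw [sum_eq_single j] at h1
  · have h2 : vv (f j) (f j) = 1 := by
      unfold vv
      rw [(hS _ (hcon j)).factorization_self]
      norm_num
    rw [h2, mul_one] at h1
    have : (c j : ℤ) = 0 := by exact_mod_cast h1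
    simpa using this
  · intro i _ hij
    have h2 : vv (f i) (f j) = 0 := by
      unfold vv
      have h3 : (f i).factorization (f j) = 0 := by
        apply Nat.factorization_eq_zero_of_not_dvd
        intro hd
        have h4 := (Nat.prime_dvd_prime_iff_eq (hS _ (hcon j)) (hS _ (hcon i))).1 hd
        exact hij (hf h4.symm)
      rw [h3]
      norm_num
    rw [h2, mul_zero]
  · intro hj
    exact absurd (mem_univ j) hj

/-- a polynomial measure gives the weak measure -/
theorem weak_of_measT {t : ℂ} (ht : MeasT t) : ∃ C₁ κ : ℕ, ∀ (u : ℤ) (v : ℕ), 1 ≤ v →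
    Real.exp (-((C₁ : ℝ) * (v : ℝ) ^ κ)) ≤ ‖t - u / v‖ := by
  obtain ⟨κ, c, hc, h⟩ := low_ratio ht 1 X (fun a b hab => by
    have h1 := congrArg (fun G : ℤ[X] => G.coeff 1) hab
    simp only [mul_one, coeff_C_mul, coeff_X, if_true] at h1
    rw [coeff_C_of_ne_zero (by norm_num)] at h1
    exact h1.symm) (s := t) (by rw [map_one, aeval_X, mul_one])
  obtain ⟨C', hC'⟩ : ∃ C' : ℕ, Real.exp (-(C' : ℝ)) ≤ c := by
    obtain ⟨n, hn⟩ := exists_nat_gt (Real.log c⁻¹)
    refine ⟨n, ?_⟩
    rw [Real.exp_neg]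
    refine inv_le_of_inv_le₀ hc ?_
    calc c⁻¹ = Real.exp (Real.log c⁻¹) := (Real.exp_log (by positivity)).symm
      _ ≤ Real.exp n := Real.exp_le_exp.2 hn.le
  refine ⟨C' + κ, 1, fun u v hv => ?_⟩
  have hv1 : (1 : ℝ) ≤ v := by exact_mod_cast hv
  have h1 := h u v hv
  have h2 : (v : ℝ) ^ κ ≤ Real.exp (κ * v) := by
    calc (v : ℝ) ^ κ ≤ Real.exp v ^ κ :=
          pow_le_pow_left₀ (by linarith) (by have := Real.add_one_le_exp (v : ℝ); linarith) _
      _ = Real.exp (κ * v) := by rw [← Real.exp_nat_mul]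
  have h3 : c ≤ Real.exp (κ * v) * ‖t - u / v‖ :=
    h1.trans (mul_le_mul_of_nonneg_right h2 (norm_nonneg _))
  have h4 : Real.exp (-(κ * v : ℝ)) * c ≤ ‖t - u / v‖ := by
    rw [Real.exp_neg, inv_mul_le_iff₀ (Real.exp_pos _)]
    exact h3
  refine le_trans ?_ h4
  calc Real.exp (-(((C' + κ : ℕ) : ℝ) * (v : ℝ) ^ 1))
      ≤ Real.exp (-(κ * v : ℝ)) * Real.exp (-(C' : ℝ)) := by
        rw [← Real.exp_add]
        apply Real.exp_le_exp.2
        push_cast
        have : (0 : ℝ) ≤ C' := by positivity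
        nlinarith
    _ ≤ _ := mul_le_mul_of_nonneg_left hC' (Real.exp_pos _).le

end Pool.Agent.U664.SV
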