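import Pool.Agent.U664.SV.Van
import Pool.Agent.R347.SX.Final

/-!
# A quantitative six exponentials theorem, with exponentially small separation

This is the theorem `six_quant` of the starting file `Pool/Agent/R347/SX/Final.lean` with the bound
`1 / W`, `W ≤ 2 ^ V`, in place of `1 / V` in the conclusion (the proof is the same).
-/

set_option autoImplicit false

namespace Pool.Agent.U664.SV

open Finset Complex Pool.Agent.R347.SX
open Pool.Agent.R347.GS (DI DI.mono DI.mul DI.pow DI.add DI.int DI.sum two_aux near_period)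

/-- **A quantitative six exponentials theorem.** -/
theorem six_quant (Y V Λ : ℕ) (W : ℝ) (hY : 2 ≤ Y) (hW1 : 1 ≤ W) (hW2 : W ≤ 2 ^ V) (hΛ : PP Y V + QQ Y ≤ Λ) (s : ℂ) (y : Fin 3 → ℂ)
    (hs : ‖s‖ ≤ Y) (hy : ∑ m, ‖y m‖ ≤ Y) (L : IntermediateField ℚ ℂ) [FiniteDimensional ℚ L] [IsGalois ℚ L]
    (hg : Fintype.card (L ≃ₐ[ℚ] L) ≤ Y) (A : Fin 2 × Fin 3 → L) (D : ℕ) (hD : 1 ≤ D) (hD2 : D ≤ 2 ^ Y)
    (hA : ∀ p, DI D 1 (A p)) (cA : ∀ p, ∀ σ : L ≃ₐ[ℚ] L, ‖((σ (A p) : L) : ℂ)‖ ≤ 2 ^ Y)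
    (e : ∀ p : Fin 2 × Fin 3, ‖exp (cf s p.1 * y p.2) - A p‖ ≤ ((2 : ℝ) ^ Λ)⁻¹) :
    (∃ (u : ℤ) (v : ℕ), 1 ≤ v ∧ v ≤ VB Y ∧ ‖s - u / v‖ ≤ W⁻¹) ∨
    ∃ c : Fin 3 → ℤ, c ≠ 0 ∧ (∀ m, |c m| ≤ VB Y) ∧ ‖∑ m, (c m : ℂ) * y m‖ ≤ W⁻¹ := by
  by_contra hcon
  rw [not_or] at hcon
  obtain ⟨hs', hy'⟩ := hcon
  push Not at hs' hy'
  have hV0 : 0 < W := by linarith
  have hV1 : W⁻¹ ≤ 1 := inv_le_one_of_one_le₀ hW1
  have hY1 : (1 : ℝ) ≤ Y := by exact_mod_cast (by omega : 1 ≤ Y)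
  have hY0 : (0 : ℝ) < Y := by linarith
  have hYp : (Y : ℝ) ≤ 2 ^ Y := by exact_mod_cast (Nat.lt_two_pow_self (n := Y)).le
  have hVp : W ≤ 2 ^ V := hW2
  have hTf : ((Tf Y : ℕ) : ℝ) ≤ 2 ^ tt Y := by exact_mod_cast Tf_le Y hY
  have hDf : ((DD Y : ℕ) : ℝ) ≤ 2 ^ tt Y := le_trans (by exact_mod_cast DD_le_Tf Y) hTf
  have hDpos := DD_pos Y
  -- separation
  have hsep : ∀ a ∈ box (Tf Y), ∀ a' ∈ box (Tf Y), a ≠ a' → W⁻¹ ≤ ‖pt y a - pt y a'‖ := by
    intro a ha a' ha' hne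
    have h1 := hy' (fun m => (a m : ℤ) - a' m) (by
      intro h
      apply hne
      funext m
      have := congrFun h m
      simp only [Pi.zero_apply] at this
      omega) (fun m => by
      have := mem_box.1 ha m
      have := mem_box.1 ha' m
      have h3 : Tf Y ≤ VB Y := by unfold VB; omega
      rw [abs_le]
      constructor <;> omega)
    have h2 : ∑ m, (((a m : ℤ) - a' m : ℤ) : ℂ) * y m = pt y a - pt y a' := by
      unfold pt
      rw [← sum_sub_distrib]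
      refine sum_congr rfl fun m _ => ?_
      push_cast
      ring
    rw [h2] at h1
    exact h1.le
  obtain ⟨p, hp0, hp⟩ := vanish Y V Λ W hY hW1 hW2 hΛ s y hs hy L hg A D hD hD2 hA cA e hsep
  set G : Fin 2 × Fin 3 → ℂ := fun p => ((A p : L) : ℂ) with hG
  have hcf : ∀ c : Fin 2, ‖cf s c‖ ≤ Y := by
    intro c
    unfold cf
    split
    · rw [norm_one]; exact hY1
    · exact hs
  have hym : ∀ m, ‖y m‖ ≤ Y := fun m =>
    (single_le_sum (f := fun m => ‖y m‖) (fun _ _ => norm_nonneg _) (mem_univ m)).trans hy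
  set η : ℝ := ((2 : ℝ) ^ PP Y V)⁻¹ with hη
  have hη0 : 0 ≤ η := by positivity
  -- the approximation of the values
  have happ : ∀ a ∈ box (Tf Y), ∀ x : Fin (DD Y) × Fin (DD Y), ‖fn s x (pt y a) - val G a x‖ ≤ η := by
    intro a ha x
    have hB : (1 : ℝ) ≤ 2 ^ (2 * Y ^ 2 + 2 * Y) := one_le_pow₀ (by norm_num)
    have hpw : ∀ c : ℕ, c ≤ 2 * Y ^ 2 + 2 * Y → (2 : ℝ) ^ c ≤ 2 ^ (2 * Y ^ 2 + 2 * Y) := fun c hc =>
      pow_le_pow_right₀ (by norm_num) hc
    have one_app : ∀ (c : L), ((((1 : L ≃ₐ[ℚ] L) c : L)) : ℂ) = (c : ℂ) := fun _ => rfl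
    have h1 := apx (d := DD Y) (Tf Y) s y G (2 ^ (2 * Y ^ 2 + 2 * Y))
      (((2 : ℝ) ^ Λ)⁻¹) hB (by positivity)
      (fun p => by
        refine (norm_exp_le_exp_norm _).trans ?_
        have : ‖cf s p.1 * y p.2‖ ≤ ((Y ^ 2 : ℕ) : ℝ) := by
          rw [norm_mul]
          push_cast
          rw [pow_two]
          exact mul_le_mul (hcf _) (hym _) (norm_nonneg _) (by positivity)
        refine (Real.exp_le_exp.2 this).trans ((Pool.Agent.R347.GS.exp_le_two_pow (Y ^ 2)).trans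
          (hpw _ ?_))
        omega)
      (fun p => by have := cA p 1; rw [one_app] at this; exact this.trans (hpw _ (by omega)))
      e a ha x
    refine h1.trans ?_
    have h2 : ((6 * (Tf Y * DD Y) : ℕ) : ℝ) ≤ 2 ^ (3 + 2 * tt Y) := by
      push_cast
      calc (6 : ℝ) * ((Tf Y : ℝ) * (DD Y : ℝ)) ≤ 2 ^ 3 * (2 ^ tt Y * 2 ^ tt Y) := by
            gcongr
            norm_num
        _ = 2 ^ (3 + 2 * tt Y) := by rw [pow_add, two_mul, pow_add]
    calc ((6 * (Tf Y * DD Y) : ℕ) : ℝ) * (2 ^ (2 * Y ^ 2 + 2 * Y)) ^ (6 * (Tf Y * DD Y)) *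
          ((2 : ℝ) ^ Λ)⁻¹
        ≤ 2 ^ (3 + 2 * tt Y) * 2 ^ ((2 * Y ^ 2 + 2 * Y) * (6 * (Tf Y * DD Y))) *
          ((2 : ℝ) ^ Λ)⁻¹ := by rw [← pow_mul]; gcongr
      _ = 2 ^ QQ Y * ((2 : ℝ) ^ Λ)⁻¹ := by rw [← pow_add]; rfl
      _ ≤ η := two_aux (by omega)
  -- all directions are degenerate
  have hdeg : ∀ m : Fin (4 * DD Y ^ 2 + 1), ∃ x x' : Fin (DD Y) × Fin (DD Y), x ≠ x' ∧
      val G (am m) x = val G (am m) x' := by
    intro m
    by_contra hinj
    push Not at hinj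
    apply hp0
    funext x
    have h1 := Pool.Agent.H297R2.small_vander (univ : Finset (Fin (DD Y) × Fin (DD Y)))
      (fun x => val G (am m) x) (fun x => (p x : ℂ)) (fun x _ x' _ h => by
        by_contra hne
        exact hinj x x' hne h) (DD Y ^ 2) (by
        rw [card_univ, Fintype.card_prod, Fintype.card_fin, pow_two]; omega) (fun j hj => by
        have h2 := hp (fun i => j * am m i) (mem_box.2 fun i =>
          am_lt Y m (by have := m.2; omega) j hj i)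
        rw [← h2]
        refine sum_congr rfl fun x _ => ?_
        rw [val_smul]) x (mem_univ x)
    exact_mod_cast h1
  choose X X' hXne hXval using hdeg
  -- two directions with the same frequency
  set Φ : Fin (4 * DD Y ^ 2 + 1) → Fin (2 * DD Y) × Fin (2 * DD Y) := fun m =>
    (⟨(X m).1 + DD Y - (X' m).1, by have := (X m).1.2; have := (X' m).1.2; omega⟩,
      ⟨(X m).2 + DD Y - (X' m).2, by have := (X m).2.2; have := (X' m).2.2; omega⟩) with hΦ
  obtain ⟨m, m', hmm, hΦmm⟩ := Fintype.exists_ne_map_eq_of_card_lt Φ (by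
    rw [Fintype.card_prod, Fintype.card_fin, Fintype.card_fin]
    have : 2 * DD Y * (2 * DD Y) = 4 * DD Y ^ 2 := by ring
    omega)
  set μ1 : ℤ := ((X m).1 : ℤ) - (X' m).1 with hμ1
  set μ2 : ℤ := ((X m).2 : ℤ) - (X' m).2 with hμ2
  have hμ1' : ((X m').1 : ℤ) - (X' m').1 = μ1 := by
    have := congrArg (fun z => (z.1 : ℕ)) hΦmm
    simp only [hΦ] at this
    have := (X m).1.2; have := (X' m).1.2; have := (X m').1.2; have := (X' m').1.2
    omega
  have hμ2' : ((X m').2 : ℤ) - (X' m').2 = μ2 := by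
    have := congrArg (fun z => (z.2 : ℕ)) hΦmm
    simp only [hΦ] at this
    have := (X m).2.2; have := (X' m).2.2; have := (X m').2.2; have := (X' m').2.2
    omega
  have hμne : ¬ (μ1 = 0 ∧ μ2 = 0) := by
    rintro ⟨h1, h2⟩
    apply hXne m
    refine Prod.ext (Fin.ext ?_) (Fin.ext ?_) <;> omega
  set β : ℂ := μ1 + μ2 * s with hβ
  have hβb : ‖β‖ ≤ 2 * DD Y * Y := by
    have h1 : |(μ1 : ℝ)| ≤ DD Y := by
      have h3 : |μ1| ≤ (DD Y : ℤ) := by
        have := (X m).1.2; have := (X' m).1.2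
        rw [abs_le]; constructor <;> omega
      exact_mod_cast h3
    have h2 : |(μ2 : ℝ)| ≤ DD Y := by
      have h3 : |μ2| ≤ (DD Y : ℤ) := by
        have := (X m).2.2; have := (X' m).2.2
        rw [abs_le]; constructor <;> omega
      exact_mod_cast h3
    rw [hβ]
    refine (norm_add_le _ _).trans ?_
    rw [norm_mul, norm_intCast, norm_intCast]
    have h4 : |(μ2 : ℝ)| * ‖s‖ ≤ DD Y * Y := mul_le_mul h2 hs (norm_nonneg _) (by positivity)
    have h5 : |(μ1 : ℝ)| ≤ DD Y * Y := h1.trans (le_mul_of_one_le_right (by positivity) hY1)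
    linarith
  have hβl : W⁻¹ ≤ ‖β‖ := by
    by_cases h : μ2 = 0
    · have h0 : μ1 ≠ 0 := fun h' => hμne ⟨h', h⟩
      rw [hβ, h, Int.cast_zero, zero_mul, add_zero, norm_intCast]
      have h4 : (1 : ℝ) ≤ |(μ1 : ℝ)| := by exact_mod_cast Int.one_le_abs h0
      exact hV1.trans h4
    · have hv1 : 1 ≤ μ2.natAbs := Int.natAbs_pos.2 h
      have hv2 : μ2.natAbs ≤ VB Y := by
        have := (X m).2.2; have := (X' m).2.2
        unfold VB; omega
      have h3 := hs' (-(μ1 * μ2.sign)) μ2.natAbs hv1 hv2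
      have hmC : (μ2 : ℂ) ≠ 0 := by exact_mod_cast h
      have h4 : (((-(μ1 * μ2.sign) : ℤ)) : ℂ) / ((μ2.natAbs : ℕ) : ℂ) = -(μ1 : ℂ) / μ2 := by
        have hn0 : ((μ2.natAbs : ℕ) : ℂ) ≠ 0 := by exact_mod_cast (by omega : μ2.natAbs ≠ 0)
        have hs3 := Pool.Agent.R347.GS.sign_cast μ2
        have hs4 := Pool.Agent.R347.GS.sign_sq μ2 h
        rw [div_eq_div_iff hn0 hmC, Int.cast_neg, Int.cast_mul]
        generalize ((μ2.natAbs : ℕ) : ℂ) = N at *
        generalize (μ2.sign : ℂ) = S at *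
        rw [hs3]
        linear_combination (-(μ1 : ℂ) * N) * hs4
      rw [h4] at h3
      have h5 : β = μ2 * (s - -(μ1 : ℂ) / μ2) := by
        rw [hβ]; field_simp; ring
      rw [h5, norm_mul, norm_intCast]
      have h6 : (1 : ℝ) ≤ |(μ2 : ℝ)| := by exact_mod_cast Int.one_le_abs h
      exact h3.le.trans (le_mul_of_one_le_left (norm_nonneg _) h6)
  have hβ0 : β ≠ 0 := by
    intro h
    rw [h, norm_zero] at hβl
    have : 0 < W⁻¹ := by positivity
    linarith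
  -- bounds for the points
  have hpt : ∀ m : Fin (4 * DD Y ^ 2 + 1), ‖pt y (am m)‖ ≤ Y * Tf Y ∧ am m ∈ box (Tf Y) := by
    intro m
    have hlt : ∀ i, am m i < Tf Y := fun i => by
      have := am_lt Y m (by have := m.2; omega) 1 (Nat.one_le_pow _ _ hDpos) i
      omega
    refine ⟨?_, mem_box.2 hlt⟩
    unfold pt
    refine (norm_sum_le _ _).trans ?_
    calc ∑ i, ‖(am m i : ℂ) * y i‖ ≤ ∑ i, Tf Y * ‖y i‖ := by
          refine sum_le_sum fun i _ => ?_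
          rw [norm_mul, Complex.norm_natCast]
          have : (am m i : ℝ) ≤ Tf Y := by exact_mod_cast (hlt i).le
          exact mul_le_mul_of_nonneg_right this (norm_nonneg _)
      _ = Tf Y * ∑ i, ‖y i‖ := by rw [mul_sum]
      _ ≤ Tf Y * Y := mul_le_mul_of_nonneg_left hy (by positivity)
      _ = _ := mul_comm _ _
  set ε : ℝ := 2 ^ (1 + gam Y (Tf Y)) * η with hε
  have hε0 : 0 ≤ ε := by positivity
  have hgT : 3 + tt Y + EE Y + gam Y (Tf Y) + lam Y (Tf Y + 1) ≤ Tf Y ^ 3 := main_ineq Y _ hY (SS_le Y)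
  have hTf3 : 8 ≤ Tf Y ^ 3 := by
    have : 2 ≤ Tf Y := by
      have : 1 ≤ DD Y ^ 6 := Nat.one_le_pow _ _ hDpos
      unfold Tf
      omega
    calc 8 = 2 ^ 3 := by norm_num
      _ ≤ Tf Y ^ 3 := Nat.pow_le_pow_left this 3
  have hPPb : 1 + gam Y (Tf Y) + (4 * tt Y + 9 + 2 * V) ≤ PP Y V := by
    unfold PP
    have h1 : (4 + Y + tt Y + V) * Tf Y ^ 3 = (4 + Y + tt Y) * Tf Y ^ 3 + V * Tf Y ^ 3 := by ring
    have h2 : 2 * V ≤ V * Tf Y ^ 3 := by nlinarith
    have h3 : Tf Y ^ 3 ≤ (4 + Y + tt Y) * Tf Y ^ 3 := Nat.le_mul_of_pos_left _ (by omega)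
    omega
  have hεb : ε ≤ ((2 : ℝ) ^ (4 * tt Y + 9 + 2 * V))⁻¹ := two_aux hPPb
  have hε2 : ε ≤ 1 / 2 := by
    refine hεb.trans ?_
    rw [inv_le_comm₀ (by positivity) (by norm_num)]
    calc ((1 : ℝ) / 2)⁻¹ = 2 ^ 1 := by norm_num
      _ ≤ 2 ^ (4 * tt Y + 9 + 2 * V) := pow_le_pow_right₀ (by norm_num) (by omega)
  -- the periods
  have hper : ∀ m : Fin (4 * DD Y ^ 2 + 1), ((X m).1 : ℤ) - (X' m).1 = μ1 →
      ((X m).2 : ℤ) - (X' m).2 = μ2 → ∃ r : ℤ, ‖β * pt y (am m) - r * (2 * Real.pi * I)‖ ≤ 2 * ε := by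
    intro m h1 h2
    apply near_period _ ε hε2
    have a1 := happ _ (hpt m).2 (X m)
    have a2 := happ _ (hpt m).2 (X' m)
    rw [hXval m] at a1
    have a3 : ‖fn s (X m) (pt y (am m)) - fn s (X' m) (pt y (am m))‖ ≤ 2 * η := by
      have e1 : fn s (X m) (pt y (am m)) - fn s (X' m) (pt y (am m)) =
          (fn s (X m) (pt y (am m)) - val G (am m) (X' m)) -
          (fn s (X' m) (pt y (am m)) - val G (am m) (X' m)) := by ring
      rw [e1]
      refine (norm_sub_le _ _).trans ?_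
      linarith
    have e2 : exp (β * pt y (am m)) - 1 =
        (fn s (X m) (pt y (am m)) - fn s (X' m) (pt y (am m))) * fn s (X' m) (-pt y (am m)) := by
      unfold fn
      rw [sub_mul, ← exp_add, ← exp_add]
      have e3 : (((X' m).1 : ℕ) + ((X' m).2 : ℕ) * s) * pt y (am m) +
          (((X' m).1 : ℕ) + ((X' m).2 : ℕ) * s) * -pt y (am m) = 0 := by ring
      rw [e3, exp_zero]
      congr 2
      have h3 : (μ1 : ℂ) = (((X m).1 : ℕ) : ℂ) - (((X' m).1 : ℕ) : ℂ) := by rw [← h1]; push_cast; rfl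
      have h4 : (μ2 : ℂ) = (((X m).2 : ℕ) : ℂ) - (((X' m).2 : ℕ) : ℂ) := by rw [← h2]; push_cast; rfl
      rw [hβ, h3, h4]
      ring
    rw [e2, norm_mul]
    have a4 := fn_le (d := DD Y) s Y (Y * Tf Y) hs (by omega) (X' m) (-pt y (am m)) (by
      rw [norm_neg]
      push_cast
      exact (hpt m).1)
    have a5 : ‖fn s (X' m) (-pt y (am m))‖ ≤ 2 ^ gam Y (Tf Y) := by
      refine a4.trans (pow_le_pow_right₀ (by norm_num) ?_)
      unfold gam
      calc 2 * (2 * DD Y * Y * (Y * Tf Y)) = 4 * Y ^ 2 * DD Y * Tf Y := by ring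
        _ ≤ 20 * Y ^ 2 * DD Y * Tf Y := by gcongr; norm_num
    calc ‖fn s (X m) (pt y (am m)) - fn s (X' m) (pt y (am m))‖ * ‖fn s (X' m) (-pt y (am m))‖
        ≤ (2 * η) * 2 ^ gam Y (Tf Y) := mul_le_mul a3 a5 (norm_nonneg _) (by positivity)
      _ = ε := by rw [hε, pow_add]; ring
  obtain ⟨r, hr⟩ := hper m rfl rfl
  obtain ⟨r', hr'⟩ := hper m' hμ1' hμ2'
  have hpi := Real.pi_gt_three
  have hrb : ∀ (m : Fin (4 * DD Y ^ 2 + 1)) (r : ℤ), ‖β * pt y (am m) - r * (2 * Real.pi * I)‖ ≤ 2 * ε →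
      |(r : ℝ)| ≤ 2 * (DD Y * Y ^ 2 * Tf Y + 1) := by
    intro m r hr
    have h1 : ‖(r : ℂ) * (2 * Real.pi * I)‖ ≤ ‖β * pt y (am m)‖ + 2 * ε := by
      have h2 : (r : ℂ) * (2 * Real.pi * I) =
        β * pt y (am m) - (β * pt y (am m) - r * (2 * Real.pi * I)) := by ring
      rw [h2]
      exact (norm_sub_le _ _).trans (add_le_add le_rfl hr)
    have h2 : ‖(r : ℂ) * (2 * Real.pi * I)‖ = |(r : ℝ)| * (2 * Real.pi) := by
      rw [norm_mul, norm_intCast]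
      congr 1
      simp [abs_of_pos Real.pi_pos]
    rw [h2, norm_mul] at h1
    have h3 : ‖β‖ * ‖pt y (am m)‖ ≤ (2 * DD Y * Y) * (Y * Tf Y) :=
      mul_le_mul hβb (hpt m).1 (norm_nonneg _) (by positivity)
    have h5 : 0 ≤ |(r : ℝ)| := abs_nonneg _
    have h6 : (2 * (DD Y : ℝ) * Y) * (Y * Tf Y) = 2 * (DD Y * Y ^ 2 * Tf Y) := by ring
    have h7 : (0 : ℝ) ≤ DD Y * Y ^ 2 * Tf Y := by positivity
    nlinarith
  have hrm := hrb m r hr
  have hrm' := hrb m' r' hr'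
  have hrp : (2 : ℝ) * (DD Y * Y ^ 2 * Tf Y + 1) ≤ 2 ^ (2 + 2 * tt Y + 2 * Y) := by
    have h1 : (DD Y : ℝ) * Y ^ 2 * Tf Y ≤ 2 ^ tt Y * (2 ^ Y) ^ 2 * 2 ^ tt Y := by gcongr
    have h2 : (1 : ℝ) ≤ 2 ^ tt Y * (2 ^ Y) ^ 2 * 2 ^ tt Y := by
      rw [← pow_mul, ← pow_add, ← pow_add]
      exact one_le_pow₀ (by norm_num)
    have h3 : (2 : ℝ) ^ (2 + 2 * tt Y + 2 * Y) = 4 * (2 ^ tt Y * (2 ^ Y) ^ 2 * 2 ^ tt Y) := by
      rw [← pow_mul, ← pow_add, ← pow_add, show (4 : ℝ) = 2 ^ 2 by norm_num, ← pow_add]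
      congr 1
      ring
    rw [h3]
    linarith
  set E1 : ℂ := β * pt y (am m) - r * (2 * Real.pi * I) with hE1
  set E2 : ℂ := β * pt y (am m') - r' * (2 * Real.pi * I) with hE2
  -- final contradiction
  have hVV : ∀ B : ℝ, 0 ≤ B → B ≤ 2 ^ (3 + 2 * tt Y + 2 * Y) → B * (2 * ε) * W ≤ W⁻¹ := by
    intro B hB0 hB
    have h6 : ((2 : ℝ) ^ V)⁻¹ ≤ W⁻¹ := inv_anti₀ hV0 hVp
    refine le_trans ?_ h6
    calc B * (2 * ε) * W ≤ 2 ^ (3 + 2 * tt Y + 2 * Y) * (2 * ((2 : ℝ) ^ (4 * tt Y + 9 + 2 * V))⁻¹) *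
          2 ^ V := by gcongr
      _ = 2 ^ (4 + 2 * tt Y + 2 * Y + V) * ((2 : ℝ) ^ (4 * tt Y + 9 + 2 * V))⁻¹ := by
          rw [show 4 + 2 * tt Y + 2 * Y + V = (3 + 2 * tt Y + 2 * Y) + (1 + V) by ring,
            pow_add 2 (3 + 2 * tt Y + 2 * Y), pow_add 2 1 V]
          ring
      _ ≤ _ := two_aux (by
          have : 2 * Y ≤ 2 * tt Y := by unfold tt; omega
          omega)
  by_cases hr0 : r = 0 ∧ r' = 0
  · obtain ⟨h1, h2⟩ := hr0
    have h3 := hy' (fun i => (am m i : ℤ)) (by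
      intro h
      have := congrFun h 0
      simp [am] at this) (fun i => by
      have h4 := mem_box.1 (hpt m).2 i
      have h5 : Tf Y ≤ VB Y := by unfold VB; omega
      rw [abs_le]
      constructor <;> omega)
    have h4 : ∑ i, (((am m i : ℤ)) : ℂ) * y i = pt y (am m) := by
      unfold pt; push_cast; rfl
    rw [h4] at h3
    have h5 : ‖β‖ * ‖pt y (am m)‖ ≤ 2 * ε := by
      rw [← norm_mul]
      rw [hE1, h1, Int.cast_zero, zero_mul, sub_zero] at hr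
      exact hr
    have h6 : ‖pt y (am m)‖ ≤ 1 * (2 * ε) * W := by
      have h7 : W⁻¹ * ‖pt y (am m)‖ ≤ 2 * ε :=
        (mul_le_mul_of_nonneg_right hβl (norm_nonneg _)).trans h5
      rw [inv_mul_le_iff₀ hV0] at h7
      linarith
    have h7 := hVV 1 (by norm_num) (one_le_pow₀ (by norm_num))
    linarith
  · have hrZ : |r| ≤ 2 * ((DD Y : ℤ) * Y ^ 2 * Tf Y + 1) := by exact_mod_cast hrm
    have hrZ' : |r'| ≤ 2 * ((DD Y : ℤ) * Y ^ 2 * Tf Y + 1) := by exact_mod_cast hrm'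
    have h3 := hy' (fun i => r' * (am m i : ℤ) - r * am m' i) (by
      intro h
      have e0 := congrFun h 0
      have e1 := congrFun h 1
      simp only [am, Pi.zero_apply] at e0 e1
      have e0' : r' = r := by
        simp at e0
        linarith
      have e1' : r' * (m : ℤ) - r * (m' : ℤ) = 0 := by simpa using e1
      rw [e0', ← mul_sub] at e1'
      rcases mul_eq_zero.1 e1' with h5 | h5
      · exact hr0 ⟨h5, by rw [e0', h5]⟩
      · apply hmm
        exact Fin.ext (by omega)) (fun i => by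
      have h4 := mem_box.1 (hpt m).2 i
      have h5 := mem_box.1 (hpt m').2 i
      have h6 : |r' * (am m i : ℤ) - r * am m' i| ≤ |r'| * Tf Y + |r| * Tf Y := by
        refine (abs_sub _ _).trans (add_le_add ?_ ?_)
        · rw [abs_mul]
          refine mul_le_mul_of_nonneg_left ?_ (abs_nonneg _)
          rw [abs_of_nonneg (by positivity)]
          exact_mod_cast h4.le
        · rw [abs_mul]
          refine mul_le_mul_of_nonneg_left ?_ (abs_nonneg _)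
          rw [abs_of_nonneg (by positivity)]
          exact_mod_cast h5.le
      refine h6.trans ?_
      have h7 : ((VB Y : ℕ) : ℤ) = 4 * ((DD Y : ℤ) * Y ^ 2 * Tf Y + 1) * Tf Y + Tf Y + DD Y := by
        unfold VB; push_cast; ring
      rw [h7]
      have h8 : (0 : ℤ) ≤ Tf Y := by positivity
      have h9 : (0 : ℤ) ≤ DD Y := by positivity
      nlinarith)
    have h4 : ∑ i, (((r' * (am m i : ℤ) - r * am m' i : ℤ)) : ℂ) * y i =
        r' * pt y (am m) - r * pt y (am m') := by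
      unfold pt
      rw [mul_sum, mul_sum, ← sum_sub_distrib]
      refine sum_congr rfl fun i _ => ?_
      push_cast
      ring
    rw [h4] at h3
    have h5 : β * (r' * pt y (am m) - r * pt y (am m')) = r' * E1 - r * E2 := by
      rw [hE1, hE2]; ring
    have h6 : ‖β‖ * ‖r' * pt y (am m) - r * pt y (am m')‖ ≤ (|(r' : ℝ)| + |(r : ℝ)|) * (2 * ε) := by
      rw [← norm_mul, h5]
      refine (norm_sub_le _ _).trans ?_
      rw [norm_mul, norm_mul, norm_intCast, norm_intCast, add_mul]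
      exact add_le_add (mul_le_mul_of_nonneg_left hr (abs_nonneg _))
        (mul_le_mul_of_nonneg_left hr' (abs_nonneg _))
    have h7 : ‖r' * pt y (am m) - r * pt y (am m')‖ ≤ (|(r' : ℝ)| + |(r : ℝ)|) * (2 * ε) * W := by
      have h8 : W⁻¹ * ‖r' * pt y (am m) - r * pt y (am m')‖ ≤
          (|(r' : ℝ)| + |(r : ℝ)|) * (2 * ε) :=
        (mul_le_mul_of_nonneg_right hβl (norm_nonneg _)).trans h6
      rw [inv_mul_le_iff₀ hV0] at h8
      linarith
    have h8 := hVV (|(r' : ℝ)| + |(r : ℝ)|) (by positivity) (by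
      have h9 : (2 : ℝ) ^ (3 + 2 * tt Y + 2 * Y) = 2 * 2 ^ (2 + 2 * tt Y + 2 * Y) := by
        rw [show 3 + 2 * tt Y + 2 * Y = 1 + (2 + 2 * tt Y + 2 * Y) by ring, pow_add, pow_one]
      rw [h9]
      linarith)
    linarith

end Pool.Agent.U664.SV
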