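import Pool.Agent.U664.SV.All
import Pool.Agent.U664.SQ.Good
import Pool.Agent.U492.GP.Group

/-!
# The powers `n ^ t` at every scale
-/

set_option autoImplicit false

namespace Pool.Agent.U664.SV

open Complex Finset Polynomial Pool.Agent.R347.SX Pool.Agent.R347.LW Pool.Agent.U664.SQ
open Pool.Agent.U492.GP (vv rel_of_log card_le_log)

theorem liouville_log (u v : ℕ) (hu : 1 ≤ u) (hv : 1 ≤ v) (huv : u ≠ v) :
    1 / (2 * (u : ℝ)) ≤ |Real.log v - Real.log u| := by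
  have hur : (1:ℝ) ≤ u := by exact_mod_cast hu
  have hvr : (1:ℝ) ≤ v := by exact_mod_cast hv
  have hu0 : (0:ℝ) < u := by linarith
  have hv0 : (0:ℝ) < v := by linarith
  rcases lt_or_gt_of_ne huv with h | h
  · have h1 : (u:ℝ) + 1 ≤ v := by exact_mod_cast h
    have h2 : 1 - (v / u : ℝ)⁻¹ ≤ Real.log (v / u) := Real.one_sub_inv_le_log_of_pos (by positivity)
    rw [Real.log_div hv0.ne' hu0.ne', inv_div] at h2
    have h3 : 1 / (2 * (u:ℝ)) ≤ 1 - u / v := by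
      rw [div_le_iff₀ (by positivity), sub_mul, one_mul, div_mul_eq_mul_div]
      rw [le_sub_iff_add_le, ← le_sub_iff_add_le', div_le_iff₀ hv0]
      nlinarith
    exact h3.trans (h2.trans (le_abs_self _))
  · have h1 : (v:ℝ) + 1 ≤ u := by exact_mod_cast h
    have h2 : 1 - (u / v : ℝ)⁻¹ ≤ Real.log (u / v) := Real.one_sub_inv_le_log_of_pos (by positivity)
    rw [Real.log_div hu0.ne' hv0.ne', inv_div] at h2
    have h3 : 1 / (2 * (u:ℝ)) ≤ 1 - v / u := by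
      rw [div_le_iff₀ (by positivity), sub_mul, one_mul, div_mul_eq_mul_div]
      rw [le_sub_iff_add_le, ← le_sub_iff_add_le', div_le_iff₀ hu0]
      nlinarith
    have h4 : Real.log u - Real.log v ≤ |Real.log v - Real.log u| := by
      rw [abs_sub_comm]
      exact le_abs_self _
    exact h3.trans (h2.trans h4)

/-- Liouville's inequality for linear forms in logarithms of natural numbers -/
theorem log_form (f : Fin 3 → ℕ) (N H l : ℕ) (hl : N < 2 ^ (l + 1)) (hf : ∀ i, f i ≠ 0) (hfN : ∀ i, f i ≤ N)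
    (b : Fin 3 → ℤ) (hb : ∀ i, |b i| ≤ H) (hH : 1 ≤ H)
    (h0 : ∑ i, (b i : ℝ) * Real.log (f i) ≠ 0) :
    Real.exp (-(4 * (l + 1) * (H : ℝ))) ≤ |∑ i, (b i : ℝ) * Real.log (f i)| := by
  obtain ⟨v, hv⟩ : ∃ v : ℕ, v = ∏ i, f i ^ (b i).toNat := ⟨_, rfl⟩
  obtain ⟨u, hu⟩ : ∃ u : ℕ, u = ∏ i, f i ^ (-(b i)).toNat := ⟨_, rfl⟩
  have hv1 : 1 ≤ v := Nat.one_le_iff_ne_zero.2 (by
    rw [hv]; exact Finset.prod_ne_zero_iff.2 fun i _ => pow_ne_zero _ (hf i))
  have hu1 : 1 ≤ u := Nat.one_le_iff_ne_zero.2 (by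
    rw [hu]; exact Finset.prod_ne_zero_iff.2 fun i _ => pow_ne_zero _ (hf i))
  have hfR : ∀ i, ((f i : ℕ) : ℝ) ≠ 0 := fun i => by exact_mod_cast hf i
  have hlog : Real.log v - Real.log u = ∑ i, (b i : ℝ) * Real.log (f i) := by
    rw [hv, hu]
    push_cast
    rw [Real.log_prod (fun i _ => pow_ne_zero _ (hfR i)),
      Real.log_prod (fun i _ => pow_ne_zero _ (hfR i)), ← sum_sub_distrib]
    refine sum_congr rfl fun i _ => ?_
    rw [Real.log_pow, Real.log_pow, ← sub_mul]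
    congr 1
    have : (b i : ℤ) = ((b i).toNat : ℤ) - ((-(b i)).toNat : ℤ) := by omega
    have h2 := congrArg (fun z : ℤ => (z : ℝ)) this
    simp only [Int.cast_sub, Int.cast_natCast] at h2
    exact h2.symm
  have huv : u ≠ v := by
    intro h
    apply h0
    rw [← hlog, h, sub_self]
  have huN : u ≤ N ^ (3 * H) := by
    rw [hu]
    have hN1 : 1 ≤ N := (Nat.one_le_iff_ne_zero.2 (hf 0)).trans (hfN 0)
    calc ∏ i, f i ^ (-(b i)).toNat ≤ ∏ _i : Fin 3, N ^ H := by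
          refine prod_le_prod' fun i _ => ?_
          refine (Nat.pow_le_pow_left (hfN i) _).trans (Nat.pow_le_pow_right hN1 ?_)
          have := abs_le.1 (hb i)
          omega
      _ = N ^ (3 * H) := by rw [prod_const, card_univ, Fintype.card_fin, ← pow_mul, mul_comm]
  rw [← hlog]
  refine le_trans ?_ (liouville_log u v hu1 hv1 huv)
  have hu0 : (0 : ℝ) < u := by exact_mod_cast hu1
  have h2u : 2 * (u : ℝ) ≤ Real.exp (4 * (l + 1) * (H : ℝ)) := by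
    have e2 : (2 : ℝ) ≤ Real.exp 1 := by
      have := Real.add_one_le_exp (1 : ℝ)
      linarith
    have h1 : 2 * u ≤ 2 ^ (4 * (l + 1) * H) := by
      calc 2 * u ≤ 2 * N ^ (3 * H) := Nat.mul_le_mul_left 2 huN
        _ ≤ 2 * (2 ^ (l + 1)) ^ (3 * H) := Nat.mul_le_mul_left 2 (Nat.pow_le_pow_left hl.le _)
        _ = 2 ^ (1 + (l + 1) * (3 * H)) := by rw [← pow_mul, pow_add, pow_one]
        _ ≤ 2 ^ (4 * (l + 1) * H) := Nat.pow_le_pow_right (by norm_num) (by nlinarith)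
    calc 2 * (u : ℝ) = ((2 * u : ℕ) : ℝ) := by push_cast; ring
      _ ≤ ((2 ^ (4 * (l + 1) * H) : ℕ) : ℝ) := by exact_mod_cast h1
      _ = (2 : ℝ) ^ (4 * (l + 1) * H) := by push_cast; ring
      _ ≤ Real.exp 1 ^ (4 * (l + 1) * H) := pow_le_pow_left₀ (by norm_num) e2 _
      _ = Real.exp (4 * (l + 1) * (H : ℝ)) := by
          rw [← Real.exp_nat_mul, mul_one]; push_cast; ring_nf
  rw [Real.exp_neg, one_div]
  exact inv_anti₀ (by positivity) h2u

theorem rb_nat (d n N : ℕ) (hn : n ≤ N) (hN : 1 ≤ N) : RB (d + 1) N (n : ℂ) := by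
  refine ⟨X - C (n : ℤ), X_sub_C_ne_zero _, by rw [natDegree_X_sub_C]; omega, fun i => ?_, by simp⟩
  rw [coeff_sub, coeff_X, coeff_C]
  rcases i with _ | _ | i
  · simp only [if_neg (by omega : ¬ (1 = 0)), if_true, zero_sub, abs_neg, Nat.abs_cast]
    exact_mod_cast hn
  · simp only [zero_add, if_true, if_neg (by omega : ¬ (1 = 0)), sub_zero, abs_one]
    exact_mod_cast hN
  · rw [if_neg (by omega), if_neg (by omega)]
    simp

theorem rb_succ {d N : ℕ} {α : ℂ} (h : RB d N α) : RB (d + 1) N α := by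
  obtain ⟨f, h1, h2, h3, h4⟩ := h
  exact ⟨f, h1, h2.trans (Nat.le_succ d), h3, h4⟩

/-- **Rank two at every scale.** -/
theorem rank_two (t : ℂ) (d κ C₁ : ℕ)
    (ht : ∀ (u : ℤ) (v : ℕ), 1 ≤ v → Real.exp (-((C₁ : ℝ) * (v : ℝ) ^ κ)) ≤ ‖t - u / v‖) :
    ∃ C N₀ : ℕ, 1 ≤ N₀ ∧ ∀ N ≥ N₀, ∀ K ≥ C, ∀ f : Fin 3 → ℕ, (∀ i, f i ≠ 0) → (∀ i, f i ≤ N) →
      (∀ i, Near d K N (exp (t * (Real.log (f i) : ℂ)))) →
      ∃ c : Fin 3 → ℤ, c ≠ 0 ∧ ∑ i, (c i : ℝ) * Real.log (f i) = 0 := by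
  obtain ⟨C, N₀, hN₀, h⟩ := six_all t (d + 1) (κ + 1) (C₁ + 4) (fun u v hv => by
    refine le_trans (Real.exp_le_exp.2 (neg_le_neg ?_)) (ht u v hv)
    have h1 : (1 : ℝ) ≤ v := by exact_mod_cast hv
    have h2 : (v : ℝ) ^ κ ≤ (v : ℝ) ^ (κ + 1) := pow_le_pow_right₀ h1 (Nat.le_succ κ)
    have h3 : (0 : ℝ) ≤ (v : ℝ) ^ κ := by positivity
    have h4 : (0 : ℝ) ≤ C₁ := by positivity
    push_cast
    nlinarith [mul_le_mul_of_nonneg_left h2 h4])
  refine ⟨C, N₀, hN₀, fun N hN K hK f hf hfN hne => ?_⟩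
  by_contra hcon
  push Not at hcon
  have hN1 : 1 ≤ N := hN₀.trans hN
  obtain ⟨l, hl⟩ : ∃ l, l = Nat.log 2 N := ⟨_, rfl⟩
  have hl2 : N < 2 ^ (l + 1) := by rw [hl]; exact Nat.lt_pow_succ_log_self (by norm_num) N
  have hlogN : ∀ i, |Real.log (f i)| ≤ (l : ℝ) + 1 := by
    intro i
    have h1 : (1 : ℝ) ≤ f i := by exact_mod_cast Nat.one_le_iff_ne_zero.2 (hf i)
    rw [abs_of_nonneg (Real.log_nonneg h1)]
    have h2 : ((f i : ℕ) : ℝ) ≤ Real.exp ((l : ℝ) + 1) := by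
      have e2 : (2 : ℝ) ≤ Real.exp 1 := by
        have := Real.add_one_le_exp (1 : ℝ)
        linarith
      calc ((f i : ℕ) : ℝ) ≤ ((2 ^ (l + 1) : ℕ) : ℝ) := by exact_mod_cast (hfN i).trans hl2.le
        _ = (2 : ℝ) ^ (l + 1) := by push_cast; ring
        _ ≤ Real.exp 1 ^ (l + 1) := pow_le_pow_left₀ (by norm_num) e2 _
        _ = Real.exp ((l : ℝ) + 1) := by rw [← Real.exp_nat_mul, mul_one]; push_cast; ring_nf
    calc Real.log (f i) ≤ Real.log (Real.exp ((l : ℝ) + 1)) := Real.log_le_log (by linarith) h2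
      _ = _ := Real.log_exp _
  choose α hα hαe using fun i => ((hne i).anti hK hN1 : Near d C N _)
  obtain ⟨⟨i, m⟩, hp⟩ := h N hN (fun m => (Real.log (f m) : ℂ)) (by
      rw [← hl]
      calc ∑ m, ‖((Real.log (f m) : ℝ) : ℂ)‖ ≤ ∑ _m : Fin 3, ((l : ℝ) + 1) := by
            refine sum_le_sum fun m _ => ?_
            rw [Complex.norm_real, Real.norm_eq_abs]
            exact hlogN m
        _ = _ := by rw [sum_const, card_univ, Fintype.card_fin, nsmul_eq_mul]; norm_num)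
    (fun b hb H hH hbH => by
      rw [← hl]
      have h1 := log_form f N H l hl2 hf hfN b hbH hH (hcon b hb)
      have e : ‖∑ m, (b m : ℂ) * ((Real.log (f m) : ℝ) : ℂ)‖ = |∑ i, (b i : ℝ) * Real.log (f i)| := by
        rw [← Real.norm_eq_abs, ← Complex.norm_real]
        congr 1
        push_cast
        rfl
      rw [e]
      refine le_trans (Real.exp_le_exp.2 (neg_le_neg ?_)) h1
      have h2 : (1 : ℝ) ≤ H := by exact_mod_cast hH
      have h3 : (H : ℝ) ≤ (H : ℝ) ^ (κ + 1) := le_self_pow₀ h2 (by omega)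
      have h4 : (0 : ℝ) ≤ C₁ := by positivity
      have h5 : (0 : ℝ) ≤ (l : ℝ) + 1 := by positivity
      have h6 : ((l : ℝ) + 1) * H ≤ ((l : ℝ) + 1) * (H : ℝ) ^ (κ + 1) := mul_le_mul_of_nonneg_left h3 h5
      have h7 : 0 ≤ (C₁ : ℝ) * (((l : ℝ) + 1) * (H : ℝ) ^ (κ + 1)) := by positivity
      push_cast
      nlinarith)
    (fun p => if p.1 = 0 then ((f p.2 : ℕ) : ℂ) else α p.2) (fun p => by
      by_cases hp : p.1 = 0
      · simp only [hp, if_true]; exact rb_nat d _ N (hfN _) hN1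
      · simp only [hp, if_false]; exact rb_succ (hα _))
  by_cases hi : i = 0
  · simp only [hi, cf, if_true, one_mul] at hp
    rw [← Complex.ofReal_exp, Real.exp_log (by exact_mod_cast Nat.pos_of_ne_zero (hf m)),
      Complex.ofReal_natCast, sub_self, norm_zero] at hp
    exact absurd hp (not_lt.2 (Real.exp_pos _).le)
  · simp only [hi, cf, if_false] at hp
    exact absurd (hαe m) (not_le.2 hp)

/-- **The bad integers up to `N` at the scale `N`.** -/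
theorem bad_integers (t : ℂ) (d κ C₁ : ℕ)
    (ht : ∀ (u : ℤ) (v : ℕ), 1 ≤ v → Real.exp (-((C₁ : ℝ) * (v : ℝ) ^ κ)) ≤ ‖t - u / v‖) :
    ∃ C N₀ : ℕ, ∀ N ≥ N₀, ∀ K ≥ C,
      (∀ f : Fin 3 → ℕ, (∀ i, f i ≠ 0 ∧ f i ≤ N ∧ ¬ Good d K N (exp (t * (Real.log (f i) : ℂ)))) →
        ∃ c : Fin 3 → ℤ, c ≠ 0 ∧ ∑ i, (c i : ℝ) * Real.log (f i) = 0) ∧
      {n : ℕ | n ≠ 0 ∧ n ≤ N ∧ ¬ Good d K N (exp (t * (Real.log n : ℂ)))}.ncard ≤
        (Nat.log 2 N + 1) ^ 2 := by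
  obtain ⟨C, N₀, hN₀, h⟩ := rank_two t d κ C₁ ht
  refine ⟨C + 1, max N₀ (d + 1), fun N hN K hK => ?_⟩
  have hNN : N₀ ≤ N := (le_max_left _ _).trans hN
  have hnear : ∀ x, ¬ Good d K N x → Near d C N x := by
    intro x hx
    by_contra hn
    exact hx ((good_of_not_near ((le_max_right _ _).trans hN) hn).mono hK (hN₀.trans hNN))
  have h1 : ∀ f : Fin 3 → ℕ, (∀ i, f i ≠ 0 ∧ f i ≤ N ∧
      ¬ Good d K N (exp (t * (Real.log (f i) : ℂ)))) →
      ∃ c : Fin 3 → ℤ, c ≠ 0 ∧ ∑ i, (c i : ℝ) * Real.log (f i) = 0 := fun f hf =>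
    h N hNN C le_rfl f (fun i => (hf i).1) (fun i => (hf i).2.1) (fun i => hnear _ (hf i).2.2)
  refine ⟨h1, ?_⟩
  have h2 := card_le_log
    (S := {n : ℕ | n ≠ 0 ∧ n ≤ N ∧ ¬ Good d K N (exp (t * (Real.log n : ℂ)))})
    (fun n hn => hn.1) (fun f hf => by
      obtain ⟨c, hc0, hc⟩ := h1 f hf
      refine ⟨fun i => (c i : ℚ), fun h => hc0 ?_, fun p => rel_of_log f (fun i => (hf i).1) c hc p⟩
      funext i
      have := congrFun h i
      simpa using this) N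
  refine le_trans (le_of_eq ?_) h2
  congr 1
  ext n
  simp only [Set.mem_setOf_eq, Set.mem_inter_iff, Set.mem_Iic]
  tauto

end Pool.Agent.U664.SV
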